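import Pool.Agent.Helper72.LGA.Defs

/-!
# A minimal supplement
-/

set_option autoImplicit false

namespace Pool.Agent.Helper72.LGA

open Subgroup Finset Pool.Agent.Helper72.LG Pool.Agent.Helper72.LGS

lemma normalizer_le_normalizer_sup {G : Type*} [Group G] (Q D : Subgroup G) [D.Normal] :
    normalizer (Q : Set G) ≤ normalizer ((Q ⊔ D : Subgroup G) : Set G) := by
  intro g hg
  have hD : g ∈ normalizer (D : Set G) := by
    rw [mem_normalizer_iff]
    intro x
    constructor
    · intro hx
      exact Subgroup.Normal.conj_mem inferInstance x hx g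
    · intro hx
      have := Subgroup.Normal.conj_mem (inferInstance : D.Normal) _ hx g⁻¹
      simpa [mul_assoc] using this
  rw [mem_normalizer_iff_map_conj_eq] at hg hD ⊢
  rw [Subgroup.map_sup, hg, hD]

/-- the iterated commutators of `S ⊓ L` computed inside -/
lemma der_inf {G : Type*} [Group G] (S L : Subgroup G) (k : ℕ) :
    der (S ⊓ L) k = ((derivedSeries (L.subgroupOf S) k).map (L.subgroupOf S).subtype).map
      S.subtype := by
  induction k with
  | zero =>
    show S ⊓ L = _
    rw [derivedSeries_zero, ← MonoidHom.range_eq_map, Subgroup.range_subtype,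
      Subgroup.subgroupOf_map_subtype, inf_comm]
  | succ k ih =>
    show ⁅der (S ⊓ L) k, der (S ⊓ L) k⁆ = _
    rw [ih, derivedSeries_succ, Subgroup.map_commutator, Subgroup.map_commutator]

theorem exists_supp {G : Type*} [Group G] [Finite G] {L Z : Subgroup G} (h : Spl L Z) :
    ∃ S : Subgroup G, Supp L Z S := by
  classical
  have hL : L.Normal := h.normal_left
  have hZ : Z.Normal := h.normal_right
  have htop : (⊤ : Subgroup G) ∈ {S : Subgroup G | Z ≤ S ∧ S ⊔ L = ⊤ ∧ ¬ S ⊓ L ≤ Z} := by
    refine ⟨le_top, top_sup_eq _, ?_⟩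
    rw [top_inf_eq]
    intro hLZ
    exact h.nonab ((Subgroup.commutator_le_left L L).trans hLZ)
  obtain ⟨S, ⟨hZS, hSL, hnot⟩, hmin⟩ :=
    (Set.toFinite {S : Subgroup G | Z ≤ S ∧ S ⊔ L = ⊤ ∧ ¬ S ⊓ L ≤ Z}).exists_minimal ⟨⊤, htop⟩
  refine ⟨S, h, hZS, hSL, hnot, ?_⟩
  have hDn : (L ⊓ Z).Normal := inferInstance
  -- the Sylow subgroups
  have key : ∀ (p : ℕ) [Fact p.Prime] (Q : Sylow p (L.subgroupOf S)),
      S ≤ normalizer ((((Q.1.map (L.subgroupOf S).subtype).map S.subtype) ⊔ (L ⊓ Z) :
        Subgroup G) : Set G) := by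
    intro p _ Q
    set Q1 : Subgroup G := (Q.1.map (L.subgroupOf S).subtype).map S.subtype with hQ1
    have hQL : Q1 ≤ L := by
      rintro _ ⟨_, ⟨x, -, rfl⟩, rfl⟩
      exact x.2
    have hQS : Q1 ≤ S := Subgroup.map_subtype_le _
    by_cases hQZ : Q1 ≤ Z
    · have h1 : Q1 ⊔ (L ⊓ Z) = L ⊓ Z := sup_eq_right.2 (le_inf hQL hQZ)
      rw [h1]
      intro g _
      rw [mem_normalizer_iff_map_conj_eq]
      have h2 : g ∈ normalizer ((L ⊓ Z : Subgroup G) : Set G) := by
        have := normalizer_le_normalizer_sup (⊥ : Subgroup G) (L ⊓ Z)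
        rw [bot_sup_eq] at this
        apply this
        rw [mem_normalizer_iff]
        intro x
        rw [Subgroup.mem_bot, Subgroup.mem_bot]
        constructor
        · rintro rfl; simp
        · intro hx
          have : x = g⁻¹ * (g * x * g⁻¹) * g := by group
          rw [this, hx]; simp
      exact mem_normalizer_iff_map_conj_eq.1 h2
    · -- the smaller supplement
      have hmem : S ⊓ normalizer ((Q1 ⊔ (L ⊓ Z) : Subgroup G) : Set G) ∈
          {S : Subgroup G | Z ≤ S ∧ S ⊔ L = ⊤ ∧ ¬ S ⊓ L ≤ Z} := by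
        refine ⟨le_inf hZS ?_, ?_, ?_⟩
        · intro z hz
          have hc : ∀ y ∈ Z, ∀ x ∈ Q1 ⊔ (L ⊓ Z), y * x * y⁻¹ ∈ Q1 ⊔ (L ⊓ Z) := by
            intro y hy x hx
            have hxL : x ∈ L := (sup_le hQL inf_le_left) hx
            have h1 : y * x * y⁻¹ * x⁻¹ ∈ L ⊓ Z := by
              constructor
              · exact L.mul_mem (hL.conj_mem x hxL y) (L.inv_mem hxL)
              · have : y * x * y⁻¹ * x⁻¹ = y * (x * y⁻¹ * x⁻¹) := by group
                rw [this]
                exact Z.mul_mem hy (hZ.conj_mem _ (Z.inv_mem hy) x)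
            have h2 : y * x * y⁻¹ = (y * x * y⁻¹ * x⁻¹) * x := by group
            rw [h2]
            exact Subgroup.mul_mem _ (Subgroup.mem_sup_right h1) hx
          show z ∈ normalizer ((Q1 ⊔ (L ⊓ Z) : Subgroup G) : Set G)
          rw [mem_normalizer_iff]
          intro x
          constructor
          · exact fun hx => hc z hz x hx
          · intro hx
            have := hc z⁻¹ (Z.inv_mem hz) _ hx
            simpa [mul_assoc] using this
        · have h1 := Sylow.normalizer_sup_eq_top Q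
          have h2 : (normalizer ((Q.1.map (L.subgroupOf S).subtype : Subgroup S) : Set S)).map S.subtype ≤
              S ⊓ normalizer ((Q1 ⊔ (L ⊓ Z) : Subgroup G) : Set G) := by
            refine le_inf (Subgroup.map_subtype_le _) ?_
            exact (le_normalizer_map _).trans (normalizer_le_normalizer_sup _ _)
          have h3 : S ≤ S ⊓ normalizer ((Q1 ⊔ (L ⊓ Z) : Subgroup G) : Set G) ⊔ L := by
            have h4 : S = (⊤ : Subgroup S).map S.subtype := by
              rw [← MonoidHom.range_eq_map, Subgroup.range_subtype]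
            have h5 : (⊤ : Subgroup S).map S.subtype ≤
                S ⊓ normalizer ((Q1 ⊔ (L ⊓ Z) : Subgroup G) : Set G) ⊔ L := by
              rw [← h1, Subgroup.map_sup]
              refine sup_le_sup h2 ?_
              rw [Subgroup.subgroupOf_map_subtype]
              exact inf_le_left
            rwa [← h4] at h5
          rw [eq_top_iff, ← hSL]
          exact sup_le h3 le_sup_right
        · intro hcon
          apply hQZ
          refine le_trans (le_inf (le_inf hQS ?_) hQL) hcon
          exact le_sup_left.trans Subgroup.le_normalizer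
      exact (hmin hmem inf_le_left).trans inf_le_right
  -- the quotient is nilpotent
  set K : Subgroup S := L.subgroupOf S with hK
  set D' : Subgroup K := ((L ⊓ Z).subgroupOf S).subgroupOf K with hD'
  have hD'n : D'.Normal := inferInstance
  have hsyl : ∀ (p : ℕ) (_hp : Fact p.Prime) (R : Sylow p (K ⧸ D')), (↑R : Subgroup (K ⧸ D')).Normal := by
    intro p hp R
    obtain ⟨Q, rfl⟩ := Sylow.mapSurjective_surjective (QuotientGroup.mk'_surjective D') p R
    rw [Sylow.coe_mapSurjective]
    refine ⟨?_⟩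
    rintro _ ⟨q, hq, rfl⟩ g
    obtain ⟨k, rfl⟩ := QuotientGroup.mk'_surjective D' g
    have h1 : (((k * q * k⁻¹ : K) : S) : G) ∈
        ((Q.1.map K.subtype).map S.subtype) ⊔ (L ⊓ Z) := by
      have h2 := key p Q (k : S).2
      rw [mem_normalizer_iff] at h2
      exact (h2 _).1 (Subgroup.mem_sup_left ⟨q, ⟨q, hq, rfl⟩, rfl⟩)
    rw [Subgroup.mem_sup_of_normal_right] at h1
    obtain ⟨_, ⟨_, ⟨a, ha, rfl⟩, rfl⟩, d, hd, had⟩ := h1
    refine ⟨a, ha, ?_⟩
    rw [← map_mul, ← map_inv, ← map_mul]
    apply (QuotientGroup.eq).2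
    show ((((a⁻¹ * (k * q * k⁻¹) : K) : S) : G)) ∈ L ⊓ Z
    have h3 : ((((a⁻¹ * (k * q * k⁻¹) : K) : S) : G)) =
      ((a : S) : G)⁻¹ * (((k * q * k⁻¹ : K) : S) : G) := rfl
    rw [h3, ← had]
    have h4 : ((a : S) : G)⁻¹ * (S.subtype (K.subtype a) * d) = d := by
      show ((a : S) : G)⁻¹ * (((a : S) : G) * d) = d
      group
    rw [h4]
    exact hd
  have hnil : Group.IsNilpotent (K ⧸ D') :=
    ((Group.isNilpotent_of_finite_tfae (G := K ⧸ D')).out 0 3 rfl rfl).2 hsyl
  have hsol : Group.IsSolvable (K ⧸ D') := inferInstance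
  obtain ⟨k, hk⟩ := hsol.solvable
  refine ⟨k, ?_⟩
  rw [der_inf]
  have h5 : derivedSeries K k ≤ D' := by
    have h6 := map_derivedSeries_eq (QuotientGroup.mk'_surjective D') k
    rw [hk, Subgroup.map_eq_bot_iff, QuotientGroup.ker_mk'] at h6
    exact h6
  rintro _ ⟨_, ⟨x, hx, rfl⟩, rfl⟩
  have h7 : ((x : S) : G) ∈ L ⊓ Z := h5 hx
  exact h7.2

end Pool.Agent.Helper72.LGA
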